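import Pool.Agent.NH15.UT.U3

set_option autoImplicit false

/-! The number of the shifts for which an interval contains a prime, asymptotically. -/

namespace Pool.Agent.NH15.TS

open Finset Filter
open Pool.Agent.W301.SS (pn pn_mono pn_le pn_eq ev_L ev_log)
open Pool.Agent.H646 (rat)
open Pool.Agent.H646.TuplesM (rat_ge_one rat_nonneg tuple_bound)
open Pool.Agent.H373R2.BH (pair_window single_window)
open Pool.Agent.NH15.UT (HT rat_small hit_all)

lemma ev_ll (c : ℝ) (hc : 0 < c) : ∀ᶠ N : ℕ in atTop, Real.log (Real.log N) ≤ c * Real.log N := by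
  have h1 : ∀ᶠ x : ℝ in atTop, Real.log x ≤ c * x := by
    filter_upwards [Real.isLittleO_log_id_atTop.bound hc, eventually_ge_atTop 1] with x hx hx1
    have h2 : 0 ≤ Real.log x := Real.log_nonneg hx1
    simp only [id] at hx
    rw [Real.norm_of_nonneg h2, Real.norm_of_nonneg (by linarith : (0 : ℝ) ≤ x)] at hx
    exact hx
  exact (Real.tendsto_log_atTop.comp tendsto_natCast_atTop_atTop).eventually h1

/-- the prime number theorem in long intervals -/
lemma prime_asym (ε : ℝ) (hε : 0 < ε) (hε1 : ε ≤ 1) : ∀ᶠ N : ℕ in atTop, ∀ j : ℕ, j ≤ 2 * N →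
    (1 - ε) * (N / Real.log N) ≤ (((Icc 1 N).filter (fun b => (b + j).Prime)).card : ℝ) ∧
    (((Icc 1 N).filter (fun b => (b + j).Prime)).card : ℝ) ≤ (1 + ε) * (N / Real.log N) := by
  filter_upwards [Pool.Agent.W301.SS.pnt_unif 1, ev_L (16 / ε + 16), ev_ll (ε / 16) (by positivity),
    eventually_ge_atTop 16] with N h1 hL hll hN16 j hj
  have hNr : (16 : ℝ) ≤ N := by exact_mod_cast hN16
  have hN0 : (0 : ℝ) < N := by linarith
  have a1 := abs_le.1 (h1 (j + N) (by omega))
  have a2 := abs_le.1 (h1 j (by omega))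
  obtain ⟨L, hLd⟩ : ∃ L, L = Real.log (N : ℝ) := ⟨_, rfl⟩
  rw [← hLd, pow_one] at a1 a2
  rw [← hLd] at hL hll ⊢
  have hε16 : 0 < 16 / ε := by positivity
  have hL16 : 16 ≤ L := by linarith
  have hL0 : 0 < L := by linarith
  have hεL : 16 ≤ ε * L := by
    have : 16 / ε ≤ L := by linarith
    rw [div_le_iff₀ hε] at this
    linarith
  obtain ⟨F, hF⟩ : ∃ F : Finset ℕ, F = (Icc 1 N).filter (fun b => (b + j).Prime) := ⟨_, rfl⟩
  rw [← hF]
  have h3 : |Chebyshev.theta ((j + N : ℕ) : ℝ) - Chebyshev.theta (j : ℝ) - N| ≤ 2 * (N / L) := by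
    rw [abs_le]
    push_cast at *
    constructor
    · linarith [a1.1, a2.2]
    · linarith [a1.2, a2.1]
  have h4 : Chebyshev.theta ((j + N : ℕ) : ℝ) - Chebyshev.theta (j : ℝ) = ∑ b ∈ F, Real.log ((b + j : ℕ) : ℝ) := by
    unfold Chebyshev.theta
    rw [hF, Nat.floor_natCast, Nat.floor_natCast, sub_eq_iff_eq_add, ← sum_image (f := fun p : ℕ => Real.log (p : ℝ))
      (g := fun b => b + j) (by intro a _ b _ hab; simpa using hab), ← sum_union]
    · apply sum_congr _ fun _ _ => rfl
      ext p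
      simp only [mem_filter, mem_Ioc, mem_union, mem_image, mem_Icc]
      constructor
      · rintro ⟨⟨h5, h6⟩, h7⟩
        rcases le_or_gt p j with h8 | h8
        · right
          exact ⟨⟨h5, h8⟩, h7⟩
        · left
          refine ⟨p - j, ⟨by omega, ?_⟩, by omega⟩
          rwa [Nat.sub_add_cancel h8.le]
      · rintro (⟨b, ⟨h5, h6⟩, rfl⟩ | ⟨⟨h5, h6⟩, h7⟩)
        · exact ⟨⟨by omega, by omega⟩, h6⟩
        · exact ⟨⟨h5, by omega⟩, h7⟩
    · rw [disjoint_left]
      intro p hp hp2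
      simp only [mem_filter, mem_Ioc, mem_image, mem_Icc] at hp hp2
      obtain ⟨b, ⟨h5, -⟩, rfl⟩ := hp
      omega
  rw [h4] at h3
  have h5 := abs_le.1 h3
  obtain ⟨v, hv⟩ : ∃ v : ℝ, v = N / L := ⟨_, rfl⟩
  have hv0 : 0 < v := by rw [hv]; positivity
  have hNv : (N : ℝ) = v * L := by rw [hv]; field_simp
  rw [← hv] at h5 ⊢
  constructor
  · -- lower bound
    have h6 : ∑ b ∈ F, Real.log ((b + j : ℕ) : ℝ) ≤ F.card * (L + 2) := by
      rw [← nsmul_eq_mul, ← sum_const]
      apply sum_le_sum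
      intro b hb
      rw [hF, mem_filter, mem_Icc] at hb
      have h6 : ((b + j : ℕ) : ℝ) ≤ 3 * N := by exact_mod_cast (by omega : b + j ≤ 3 * N)
      have h7 : (0 : ℝ) < ((b + j : ℕ) : ℝ) := by exact_mod_cast hb.2.pos
      refine (Real.log_le_log h7 h6).trans ?_
      rw [Real.log_mul (by norm_num) hN0.ne', ← hLd]
      have : Real.log 3 ≤ 2 := by
        have := Real.log_le_sub_one_of_pos (show (0 : ℝ) < 3 by norm_num)
        linarith
      linarith
    have h7 : v * (L - 2) ≤ F.card * (L + 2) := by nlinarith [h5.1]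
    have h8 : (1 - ε) * (L + 2) ≤ L - 2 := by nlinarith
    have h9 : (1 - ε) * v * (L + 2) ≤ F.card * (L + 2) := by
      calc (1 - ε) * v * (L + 2) = v * ((1 - ε) * (L + 2)) := by ring
        _ ≤ v * (L - 2) := mul_le_mul_of_nonneg_left h8 hv0.le
        _ ≤ _ := h7
    exact le_of_mul_le_mul_right h9 (by linarith)
  · -- upper bound
    have hM0 : 0 < v / L := by positivity
    have hlogM : Real.log (v / L) = L - 2 * Real.log L := by
      rw [hv, Real.log_div (by positivity) hL0.ne', Real.log_div hN0.ne' hL0.ne', ← hLd]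
      ring
    have hsplit := card_filter_add_card_filter_not (s := F) (fun b => ((b + j : ℕ) : ℝ) ≤ v / L)
    have h6 : ((F.filter (fun b => ((b + j : ℕ) : ℝ) ≤ v / L)).card : ℝ) ≤ v / L := by
      have h7 : (F.filter (fun b => ((b + j : ℕ) : ℝ) ≤ v / L)).card ≤ ⌊v / L⌋₊ := by
        have h8 : F.filter (fun b => ((b + j : ℕ) : ℝ) ≤ v / L) ⊆ Icc 1 ⌊v / L⌋₊ := by
          intro b hb
          rw [mem_filter, hF, mem_filter, mem_Icc] at hb
          rw [mem_Icc]
          refine ⟨hb.1.1.1, Nat.le_floor ?_⟩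
          have h9 : (b : ℝ) ≤ ((b + j : ℕ) : ℝ) := by exact_mod_cast (by omega : b ≤ b + j)
          linarith [hb.2]
        have := card_le_card h8
        rwa [Nat.card_Icc, Nat.add_sub_cancel] at this
      exact (Nat.cast_le.2 h7).trans (Nat.floor_le hM0.le)
    have h7 : ((F.filter (fun b => ¬ ((b + j : ℕ) : ℝ) ≤ v / L)).card : ℝ) * (L - 2 * Real.log L) ≤ v * L + 2 * v := by
      calc _ = ∑ _b ∈ F.filter (fun b => ¬ ((b + j : ℕ) : ℝ) ≤ v / L), (L - 2 * Real.log L) := by
            rw [sum_const, nsmul_eq_mul]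
        _ ≤ ∑ b ∈ F.filter (fun b => ¬ ((b + j : ℕ) : ℝ) ≤ v / L), Real.log ((b + j : ℕ) : ℝ) := by
            apply sum_le_sum
            intro b hb
            rw [mem_filter, not_le] at hb
            rw [← hlogM]
            exact Real.log_le_log hM0 hb.2.le
        _ ≤ ∑ b ∈ F, Real.log ((b + j : ℕ) : ℝ) := by
            apply sum_le_sum_of_subset_of_nonneg (filter_subset _ _)
            intro b _ _
            exact Real.log_natCast_nonneg _
        _ ≤ _ := by linarith [h5.2]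
    have h8 : (F.card : ℝ) = ((F.filter (fun b => ((b + j : ℕ) : ℝ) ≤ v / L)).card : ℝ) +
        ((F.filter (fun b => ¬ ((b + j : ℕ) : ℝ) ≤ v / L)).card : ℝ) := by exact_mod_cast hsplit.symm
    obtain ⟨w, hw⟩ : ∃ w : ℝ, w = ((F.filter (fun b => ¬ ((b + j : ℕ) : ℝ) ≤ v / L)).card : ℝ) := ⟨_, rfl⟩
    rw [← hw] at h7 h8
    have hw0 : 0 ≤ w := by rw [hw]; exact Nat.cast_nonneg _
    have hden : (1 - ε / 8) * L ≤ L - 2 * Real.log L := by nlinarith
    have h9 : w * ((1 - ε / 8) * L) ≤ v * L + 2 * v := (mul_le_mul_of_nonneg_left hden hw0).trans h7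
    have h10 : w ≤ (1 + ε / 2) * v := by
      have h11 : v * L + 2 * v ≤ ((1 + ε / 2) * v) * ((1 - ε / 8) * L) := by
        have h12 : L + 2 ≤ (1 + ε / 2) * (1 - ε / 8) * L := by
          have h13 : 1 + ε / 4 ≤ (1 + ε / 2) * (1 - ε / 8) := by nlinarith
          have h14 := mul_le_mul_of_nonneg_right h13 hL0.le
          nlinarith
        calc v * L + 2 * v = v * (L + 2) := by ring
          _ ≤ v * ((1 + ε / 2) * (1 - ε / 8) * L) := mul_le_mul_of_nonneg_left h12 hv0.le
          _ = _ := by ring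
      exact le_of_mul_le_mul_right (h9.trans h11) (mul_pos (by linarith) hL0)
    have h11 : v / L ≤ ε / 2 * v := by
      rw [div_le_iff₀ hL0]
      nlinarith
    rw [h8]
    linarith

/-- the number of the primes in the shifted intervals -/
lemma first_asym (ε : ℝ) (hε : 0 < ε) (hε1 : ε ≤ 1) : ∀ᶠ N : ℕ in atTop, ∀ n y : ℕ, n ≤ N → y ≤ N →
    (1 - ε) * (N * (y / Real.log N)) ≤ ∑ b ∈ Icc 1 N, (pn (n + b) y : ℝ) ∧
    ∑ b ∈ Icc 1 N, (pn (n + b) y : ℝ) ≤ (1 + ε) * (N * (y / Real.log N)) := by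
  filter_upwards [prime_asym ε hε hε1] with N h1 n y hn hy
  have e : ∑ b ∈ Icc 1 N, (pn (n + b) y : ℝ) =
      ∑ h ∈ Ioc 0 y, (((Icc 1 N).filter (fun b => (b + (n + h)).Prime)).card : ℝ) := by
    simp_rw [pn_eq]
    rw [sum_comm]
    apply sum_congr rfl
    intro h _
    rw [← sum_filter, sum_const, nsmul_eq_mul, mul_one]
    congr 3
    ext b
    rw [show n + b + h = b + (n + h) by ring]
  rw [e]
  have e2 : ∀ c : ℝ, ∑ _h ∈ Ioc 0 y, c = y * c := by
    intro c
    rw [sum_const, Nat.card_Ioc, nsmul_eq_mul, Nat.sub_zero]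
  constructor
  · calc (1 - ε) * (N * (y / Real.log N)) = ∑ _h ∈ Ioc 0 y, (1 - ε) * (N / Real.log N) := by
          rw [e2]
          ring
      _ ≤ _ := by
          apply sum_le_sum
          intro h hh
          rw [mem_Ioc] at hh
          exact (h1 (n + h) (by omega)).1
  · calc _ ≤ ∑ _h ∈ Ioc 0 y, (1 + ε) * (N / Real.log N) := by
          apply sum_le_sum
          intro h hh
          rw [mem_Ioc] at hh
          exact (h1 (n + h) (by omega)).2
      _ = _ := by
          rw [e2]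
          ring

/-- pairs of primes in the shifted intervals -/
lemma pair_small : ∃ C : ℝ, 0 < C ∧ ∀ s : ℝ, 0 < s → ∀ᶠ N : ℕ in atTop, ∀ n y : ℕ, n ≤ N → y ≤ N →
    ∑ b ∈ Icc 1 N, ((pn (n + b) y : ℝ) ^ 2 - pn (n + b) y) ≤ C * N * (y / Real.log N) ^ 2 * Real.log N ^ s := by
  obtain ⟨C2, hC2, A, N₂, h2⟩ := pair_window
  refine ⟨C2, hC2, fun s hs => ?_⟩
  obtain ⟨s', hs'⟩ : ∃ s' : ℝ, s' = s / (A + 1) := ⟨_, rfl⟩
  have hs'0 : 0 < s' := by rw [hs']; positivity
  have hs'1 : s' * A ≤ s := by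
    rw [hs', div_mul_eq_mul_div, div_le_iff₀ (by positivity)]
    nlinarith
  filter_upwards [eventually_ge_atTop N₂, ev_L 1, rat_small s' hs'0] with N hN2 hL hrat n y hn hy
  have hL0 : 0 < Real.log N := by linarith
  have e1 : ∀ b : ℕ, (pn (n + b) y : ℝ) ^ 2 - pn (n + b) y = ∑ h ∈ Ioc 0 y, ∑ h' ∈ (Ioc 0 y).erase h,
      (if (b + (n + h)).Prime ∧ (b + (n + h')).Prime then (1 : ℝ) else 0) := by
    intro b
    obtain ⟨x, hx⟩ : ∃ x : ℕ → ℝ, x = fun h => if (b + (n + h)).Prime then (1 : ℝ) else 0 := ⟨_, rfl⟩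
    have e2 : (pn (n + b) y : ℝ) = ∑ h ∈ Ioc 0 y, x h := by
      rw [pn_eq, hx]
      apply sum_congr rfl
      intro h _
      simp only
      rw [show n + b + h = b + (n + h) by ring]
    have e3 : ∀ h h', (if (b + (n + h)).Prime ∧ (b + (n + h')).Prime then (1 : ℝ) else 0) = x h * x h' := by
      intro h h'
      rw [hx]
      by_cases g1 : (b + (n + h)).Prime <;> by_cases g2 : (b + (n + h')).Prime <;> simp [g1, g2]
    simp_rw [e3]
    rw [e2, sq, sum_mul_sum, ← sum_sub_distrib]
    apply sum_congr rfl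
    intro h hh
    rw [← add_sum_erase _ _ hh]
    have : x h * x h = x h := by
      rw [hx]
      simp only
      split_ifs <;> simp
    rw [this]
    ring
  simp_rw [e1]
  rw [sum_comm]
  calc ∑ h ∈ Ioc 0 y, ∑ b ∈ Icc 1 N, ∑ h' ∈ (Ioc 0 y).erase h,
        (if (b + (n + h)).Prime ∧ (b + (n + h')).Prime then (1 : ℝ) else 0) ≤
        ∑ _h ∈ Ioc 0 y, ∑ _h' ∈ Ioc 0 y, C2 * N / Real.log N ^ 2 * Real.log N ^ s := by
        apply sum_le_sum
        intro h hh
        rw [sum_comm]
        refine le_trans ?_ (sum_le_sum_of_subset_of_nonneg (erase_subset h _) fun _ _ _ => by positivity)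
        apply sum_le_sum
        intro h' hh'
        rw [mem_erase] at hh'
        rw [← sum_filter, sum_const, nsmul_eq_mul, mul_one]
        rw [mem_Ioc] at hh hh'
        have key : ∀ a a' : ℕ, a < a' → 1 ≤ a' - a → a' - a ≤ 2 * N →
            (((Icc 1 N).filter (fun b => (b + a).Prime ∧ (b + a').Prime)).card : ℝ) ≤
              C2 * N / Real.log N ^ 2 * Real.log N ^ s := by
          intro a a' haa ha1 ha2
          refine (h2 N hN2 a' a haa).trans ?_
          apply mul_le_mul_of_nonneg_left _ (by positivity)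
          calc rat (a' - a) ^ A ≤ (Real.log N ^ s') ^ A := pow_le_pow_left₀ (rat_nonneg _) (hrat _ ha1 ha2) A
            _ = Real.log N ^ (s' * A) := by rw [← Real.rpow_natCast, ← Real.rpow_mul hL0.le]
            _ ≤ _ := Real.rpow_le_rpow_of_exponent_le hL hs'1
        rcases lt_or_gt_of_ne hh'.1 with g | g
        · have := key (n + h') (n + h) (by omega) (by omega) (by omega)
          refine le_trans (le_of_eq ?_) this
          congr 2
          ext b
          rw [mem_filter, mem_filter]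
          tauto
        · exact key (n + h) (n + h') (by omega) (by omega) (by omega)
    _ = _ := by
        rw [sum_const, sum_const, Nat.card_Ioc, nsmul_eq_mul, nsmul_eq_mul, Nat.sub_zero]
        ring

/-- the number of the shifts for which the interval contains a prime -/
lemma hits_asym (ε δ : ℝ) (hε : 0 < ε) (hε1 : ε ≤ 1) (hδ : 0 < δ) : ∀ᶠ N : ℕ in atTop, ∀ n y : ℕ, n ≤ N →
    (y : ℝ) ≤ Real.log N ^ (1 - δ) →
    (1 - ε) * (N * (y / Real.log N)) ≤ (((Icc 1 N).filter (fun b => HT y (n + b))).card : ℝ) ∧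
    (((Icc 1 N).filter (fun b => HT y (n + b))).card : ℝ) ≤ (1 + ε) * (N * (y / Real.log N)) := by
  obtain ⟨C, hC, hp⟩ := pair_small
  have hsm : ∀ᶠ N : ℕ in atTop, 2 * C / ε ≤ Real.log N ^ (δ / 2) := by
    have ht : Tendsto (fun N : ℕ => Real.log N) atTop atTop := Real.tendsto_log_atTop.comp tendsto_natCast_atTop_atTop
    exact ((tendsto_rpow_atTop (by positivity : 0 < δ / 2)).comp ht).eventually_ge_atTop _
  filter_upwards [first_asym (ε / 2) (by positivity) (by linarith), hp (δ / 2) (by positivity), hsm, ev_L 1,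
    eventually_ge_atTop 1] with N h1 h2 hsm hL hN1 n y hn hy
  have hN0 : (0 : ℝ) < N := by exact_mod_cast hN1
  obtain ⟨L, hLd⟩ : ∃ L, L = Real.log (N : ℝ) := ⟨_, rfl⟩
  rw [← hLd] at h1 h2 hsm hL hy ⊢
  have hL0 : 0 < L := by linarith
  have hyN : y ≤ N := by
    have h3 : L ^ (1 - δ) ≤ L ^ (1 : ℝ) := Real.rpow_le_rpow_of_exponent_le hL (by linarith)
    rw [Real.rpow_one] at h3
    have h4 : L ≤ N := by
      rw [hLd]
      have := Real.log_le_sub_one_of_pos hN0
      linarith
    have : (y : ℝ) ≤ N := by linarith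
    exact_mod_cast this
  obtain ⟨h3, h4⟩ := h1 n y hn hyN
  have h5 := h2 n y hn hyN
  have hcard : (((Icc 1 N).filter (fun b => HT y (n + b))).card : ℝ) =
      ∑ b ∈ Icc 1 N, if HT y (n + b) then (1 : ℝ) else 0 := by
    rw [← sum_filter, sum_const, nsmul_eq_mul, mul_one]
  rw [hcard]
  constructor
  · have h6 : ∑ b ∈ Icc 1 N, ((pn (n + b) y : ℝ) - ((pn (n + b) y : ℝ) ^ 2 - pn (n + b) y) / 2) ≤
        ∑ b ∈ Icc 1 N, if HT y (n + b) then (1 : ℝ) else 0 := by
      apply sum_le_sum
      intro b _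
      split_ifs with h
      · unfold HT at h
        obtain ⟨m, hm⟩ : ∃ m : ℕ, m = pn (n + b) y := ⟨_, rfl⟩
        rw [← hm] at h ⊢
        rcases Nat.lt_or_ge m 2 with g | g
        · have : m = 1 := by omega
          rw [this]
          norm_num
        · have : (2 : ℝ) ≤ m := by exact_mod_cast g
          nlinarith
      · have : pn (n + b) y = 0 := by
          unfold HT at h
          omega
        rw [this]
        norm_num
    rw [sum_sub_distrib, ← sum_div] at h6
    have h7 : C * N * (y / L) ^ 2 * L ^ (δ / 2) ≤ ε * (N * (y / L)) := by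
      have h8 : (y / L) * L ^ (δ / 2) ≤ L ^ (-(δ / 2)) := by
        calc (y / L) * L ^ (δ / 2) ≤ (L ^ (1 - δ) / L) * L ^ (δ / 2) := by
              apply mul_le_mul_of_nonneg_right _ (by positivity)
              exact div_le_div_of_nonneg_right hy hL0.le
          _ = _ := by
              rw [← Real.rpow_sub_one hL0.ne', ← Real.rpow_add hL0]
              congr 1
              ring
      have h9 : C * L ^ (-(δ / 2)) ≤ ε := by
        rw [Real.rpow_neg hL0.le, ← div_eq_mul_inv, div_le_iff₀ (by positivity)]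
        rw [div_le_iff₀ hε] at hsm
        nlinarith
      calc C * N * (y / L) ^ 2 * L ^ (δ / 2) = (N * (y / L)) * (C * ((y / L) * L ^ (δ / 2))) := by ring
        _ ≤ (N * (y / L)) * (C * L ^ (-(δ / 2))) := by
            apply mul_le_mul_of_nonneg_left _ (by positivity)
            exact mul_le_mul_of_nonneg_left h8 hC.le
        _ ≤ (N * (y / L)) * ε := mul_le_mul_of_nonneg_left h9 (by positivity)
        _ = _ := by ring
    linarith
  · calc ∑ b ∈ Icc 1 N, (if HT y (n + b) then (1 : ℝ) else 0) ≤ ∑ b ∈ Icc 1 N, (pn (n + b) y : ℝ) := by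
          apply sum_le_sum
          intro b _
          split_ifs with h
          · unfold HT at h
            exact_mod_cast h
          · exact Nat.cast_nonneg _
      _ ≤ (1 + ε / 2) * (N * (y / L)) := h4
      _ ≤ _ := by
          apply mul_le_mul_of_nonneg_right _ (by positivity)
          linarith

end Pool.Agent.NH15.TS
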