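import Pool.Agent.NH15.TS.T1

set_option autoImplicit false

/-! Tuples of shifts: the number of the points which survive, upper and lower bounds. -/

namespace Pool.Agent.NH15.TS

open Finset Filter
open Pool.Agent.W301.SS (pn pn_mono pn_le pn_eq ev_L ev_log)
open Pool.Agent.NH15.UT (HT numT tup mem_tup numT_mono numT_le numT_or numT_zero numT_ex numT_succ surv surv_cons)

lemma chainT (N y : ℕ) (S0 : Finset ℕ) (θ ε β : ℝ) (hθ : 0 < θ) (hε : 0 ≤ ε) (hβ : 0 ≤ β)
    (hbad : ∀ S : Finset ℕ, S ⊆ S0 → θ ≤ S.card →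
      (((Icc 1 N).filter (fun b => S.card < 2 * (S.filter (fun n => HT y (n + b))).card)).card : ℝ) ≤ β * N)
    (hmean : ∀ S : Finset ℕ, S ⊆ S0 → θ ≤ S.card →
      ∑ b ∈ Icc 1 N, (1 + ((S.filter (fun n => HT y (n + b))).card : ℝ) / S.card +
        2 * (((S.filter (fun n => HT y (n + b))).card : ℝ) / S.card) ^ 2) ≤ (1 + ε) * N) (k : ℕ) :
    ∀ S : Finset ℕ, S ⊆ S0 → S.Nonempty →
      numT N k (fun b => ((surv y S b).card : ℝ) < θ) ≤ (N : ℝ) ^ k * (θ / S.card * (1 + ε) ^ k + k * β) := by
  classical
  induction k with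
  | zero =>
    intro S hS hSn
    have hS0 : (0 : ℝ) < S.card := by exact_mod_cast card_pos.2 hSn
    by_cases h : (S.card : ℝ) < θ
    · refine (numT_le N 0 _).trans ?_
      rw [pow_zero, pow_zero, mul_one, one_mul]
      have : 1 ≤ θ / S.card := by
        rw [le_div_iff₀ hS0]
        linarith
      simp only [Nat.cast_zero, zero_mul, add_zero]
      exact this
    · have : numT N 0 (fun b => ((surv y S b).card : ℝ) < θ) = 0 := by
        apply numT_zero
        intro b h2
        apply h
        have : surv y S b = S := by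
          unfold surv
          rw [filter_eq_self]
          intro n _ i
          exact i.elim0
        rwa [this] at h2
      rw [this]
      positivity
  | succ k ih =>
    intro S hS hSn
    have hS0 : (0 : ℝ) < S.card := by exact_mod_cast card_pos.2 hSn
    have hN0 : (0 : ℝ) ≤ N := Nat.cast_nonneg N
    by_cases hlt : (S.card : ℝ) < θ
    · refine (numT_le N (k + 1) _).trans ?_
      have h1 : 1 ≤ θ / S.card := by
        rw [le_div_iff₀ hS0]
        linarith
      have h2 : 1 ≤ (1 + ε) ^ (k + 1) := one_le_pow₀ (by linarith)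
      have h3 : 1 ≤ θ / S.card * (1 + ε) ^ (k + 1) + ((k + 1 : ℕ) : ℝ) * β := by
        have : 0 ≤ ((k + 1 : ℕ) : ℝ) * β := by positivity
        nlinarith
      calc (N : ℝ) ^ (k + 1) = (N : ℝ) ^ (k + 1) * 1 := (mul_one _).symm
        _ ≤ _ := mul_le_mul_of_nonneg_left h3 (by positivity)
    rw [not_lt] at hlt
    rw [numT_succ]
    simp only [surv_cons]
    obtain ⟨Bad, hBad⟩ : ∃ Bad : Finset ℕ, Bad = (Icc 1 N).filter (fun b => S.card < 2 * (S.filter (fun n => HT y (n + b))).card) :=
      ⟨_, rfl⟩
    have hb := hbad S hS hlt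
    rw [← hBad] at hb
    have hterm : ∀ b0 ∈ Icc 1 N, numT N k (fun b => ((surv y (S.filter (fun n => ¬ HT y (n + b0))) b).card : ℝ) < θ) ≤
        (if b0 ∈ Bad then (N : ℝ) ^ k else 0) +
        (N : ℝ) ^ k * (θ / S.card * (1 + ε) ^ k * (1 + ((S.filter (fun n => HT y (n + b0))).card : ℝ) / S.card +
          2 * (((S.filter (fun n => HT y (n + b0))).card : ℝ) / S.card) ^ 2) + k * β) := by
      intro b0 hb0
      have hrest : 0 ≤ (N : ℝ) ^ k * (θ / S.card * (1 + ε) ^ k * (1 + ((S.filter (fun n => HT y (n + b0))).card : ℝ) / S.card +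
          2 * (((S.filter (fun n => HT y (n + b0))).card : ℝ) / S.card) ^ 2) + k * β) := by positivity
      by_cases h : b0 ∈ Bad
      · rw [if_pos h]
        linarith [numT_le N k (fun b => ((surv y (S.filter (fun n => ¬ HT y (n + b0))) b).card : ℝ) < θ)]
      · rw [if_neg h, zero_add]
        rw [hBad, mem_filter, not_and, not_lt] at h
        have h1 := h hb0
        obtain ⟨κ, hκ⟩ : ∃ κ : ℝ, κ = ((S.filter (fun n => HT y (n + b0))).card : ℝ) / S.card := ⟨_, rfl⟩
        have hκ0 : 0 ≤ κ := by rw [hκ]; positivity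
        have hκ1 : κ ≤ 1 / 2 := by
          rw [hκ, div_le_iff₀ hS0]
          have : (2 : ℝ) * (S.filter (fun n => HT y (n + b0))).card ≤ S.card := by exact_mod_cast h1
          linarith
        have hS' : ((S.filter (fun n => ¬ HT y (n + b0))).card : ℝ) = (1 - κ) * S.card := by
          have h2 := card_filter_add_card_filter_not (s := S) (fun n => HT y (n + b0))
          have h3 : ((S.filter (fun n => HT y (n + b0))).card : ℝ) + (S.filter (fun n => ¬ HT y (n + b0))).card = S.card := by
            exact_mod_cast h2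
          have h4 : ((S.filter (fun n => HT y (n + b0))).card : ℝ) = κ * S.card := by
            rw [hκ]
            field_simp
          linarith
        have hpos : 0 < (1 - κ) * S.card := mul_pos (by linarith) hS0
        have hne : (S.filter (fun n => ¬ HT y (n + b0))).Nonempty := by
          rw [← card_pos]
          have : (0 : ℝ) < ((S.filter (fun n => ¬ HT y (n + b0))).card : ℝ) := by rw [hS']; exact hpos
          exact_mod_cast this
        refine (ih (S.filter (fun n => ¬ HT y (n + b0))) ((filter_subset _ _).trans hS) hne).trans ?_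
        apply mul_le_mul_of_nonneg_left _ (by positivity)
        apply add_le_add _ le_rfl
        rw [hS', ← hκ]
        have h2 : θ / ((1 - κ) * S.card) ≤ θ / S.card * (1 + κ + 2 * κ ^ 2) := by
          rw [div_le_iff₀ hpos]
          have h3 : 1 ≤ (1 + κ + 2 * κ ^ 2) * (1 - κ) := by
            nlinarith [mul_nonneg (sq_nonneg κ) (by linarith : (0:ℝ) ≤ 1 - 2 * κ)]
          calc θ = θ * 1 := (mul_one θ).symm
            _ ≤ θ * ((1 + κ + 2 * κ ^ 2) * (1 - κ)) := mul_le_mul_of_nonneg_left h3 hθ.le
            _ = _ := by field_simp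
        calc θ / ((1 - κ) * S.card) * (1 + ε) ^ k ≤ θ / S.card * (1 + κ + 2 * κ ^ 2) * (1 + ε) ^ k :=
              mul_le_mul_of_nonneg_right h2 (by positivity)
          _ = _ := by ring
    refine (sum_le_sum hterm).trans ?_
    rw [sum_add_distrib]
    have h1 : ∑ b0 ∈ Icc 1 N, (if b0 ∈ Bad then (N : ℝ) ^ k else 0) ≤ β * N * (N : ℝ) ^ k := by
      rw [← sum_filter, sum_const, nsmul_eq_mul]
      apply mul_le_mul_of_nonneg_right _ (by positivity)
      refine le_trans ?_ hb
      apply Nat.cast_le.2
      apply card_le_card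
      intro b hb
      exact (mem_filter.1 hb).2
    have h2 : ∑ b0 ∈ Icc 1 N, (N : ℝ) ^ k * (θ / S.card * (1 + ε) ^ k *
        (1 + ((S.filter (fun n => HT y (n + b0))).card : ℝ) / S.card +
          2 * (((S.filter (fun n => HT y (n + b0))).card : ℝ) / S.card) ^ 2) + k * β) ≤
        (N : ℝ) ^ k * (θ / S.card * (1 + ε) ^ k * ((1 + ε) * N) + N * (k * β)) := by
      rw [← mul_sum, sum_add_distrib, ← mul_sum, sum_const, nsmul_eq_mul, Nat.card_Icc, Nat.add_sub_cancel]
      apply mul_le_mul_of_nonneg_left _ (by positivity)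
      apply add_le_add _ le_rfl
      exact mul_le_mul_of_nonneg_left (hmean S hS hlt) (by positivity)
    have h3 := add_le_add h1 h2
    refine h3.trans (le_of_eq ?_)
    push_cast
    ring

/-- the mean number of the survivors -/
lemma many_surv (N k y : ℕ) (S : Finset ℕ) (q W : ℝ) (hq : ∀ n ∈ S, q * N ≤ (((Icc 1 N).filter (fun b => HT y (n + b))).card : ℝ)) :
    numT N k (fun b => W ≤ ((surv y S b).card : ℝ)) * W ≤ S.card * ((N : ℝ) ^ k * Real.exp (-(k * q))) := by
  classical
  have hN0 : (0 : ℝ) ≤ N := Nat.cast_nonneg N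
  have h1 : ∑ b ∈ (Fintype.piFinset fun _ : Fin k => Icc 1 N), ((surv y S b).card : ℝ) ≤
      S.card * ((N : ℝ) ^ k * Real.exp (-(k * q))) := by
    have e1 : ∀ b : Fin k → ℕ, ((surv y S b).card : ℝ) = ∑ n ∈ S, if (∀ i, ¬ HT y (n + b i)) then (1 : ℝ) else 0 := by
      intro b
      unfold surv
      rw [← sum_filter, sum_const, nsmul_eq_mul, mul_one]
    rw [sum_congr rfl fun b _ => e1 b, sum_comm]
    calc ∑ n ∈ S, ∑ b ∈ (Fintype.piFinset fun _ : Fin k => Icc 1 N), (if (∀ i, ¬ HT y (n + b i)) then (1 : ℝ) else 0) ≤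
          ∑ _n ∈ S, (N : ℝ) ^ k * Real.exp (-(k * q)) := by
          apply sum_le_sum
          intro n hn
          rw [← sum_filter, sum_const, nsmul_eq_mul, mul_one]
          have e2 : (Fintype.piFinset fun _ : Fin k => Icc 1 N).filter (fun b => ∀ i, ¬ HT y (n + b i)) =
              Fintype.piFinset fun _ : Fin k => (Icc 1 N).filter (fun b => ¬ HT y (n + b)) := by
            ext b
            rw [mem_filter, Fintype.mem_piFinset, Fintype.mem_piFinset]
            simp only [mem_filter]
            exact ⟨fun h i => ⟨h.1 i, h.2 i⟩, fun h => ⟨fun i => (h i).1, fun i => (h i).2⟩⟩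
          rw [e2, Fintype.card_piFinset, prod_const, card_univ, Fintype.card_fin]
          push_cast
          have h2 := card_filter_add_card_filter_not (s := Icc 1 N) (fun b => HT y (n + b))
          rw [Nat.card_Icc, Nat.add_sub_cancel] at h2
          have h3 : (((Icc 1 N).filter (fun b => HT y (n + b))).card : ℝ) +
              (((Icc 1 N).filter (fun b => ¬ HT y (n + b))).card : ℝ) = N := by exact_mod_cast h2
          have h4 := hq n hn
          have h5 : (((Icc 1 N).filter (fun b => ¬ HT y (n + b))).card : ℝ) ≤ N * Real.exp (-q) := by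
            have := Real.add_one_le_exp (-q)
            nlinarith
          calc (((Icc 1 N).filter (fun b => ¬ HT y (n + b))).card : ℝ) ^ k ≤ (N * Real.exp (-q)) ^ k :=
                pow_le_pow_left₀ (Nat.cast_nonneg _) h5 k
            _ = _ := by
                rw [mul_pow, ← Real.exp_nat_mul]
                congr 2
                ring
      _ = _ := by rw [sum_const, nsmul_eq_mul]
  refine le_trans ?_ h1
  unfold numT
  rw [← nsmul_eq_mul, ← sum_const]
  calc ∑ _b ∈ tup N k (fun b => W ≤ ((surv y S b).card : ℝ)), W ≤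
        ∑ b ∈ tup N k (fun b => W ≤ ((surv y S b).card : ℝ)), ((surv y S b).card : ℝ) := by
        apply sum_le_sum
        intro b hb
        exact (mem_tup.1 hb).2
    _ ≤ _ := by
        apply sum_le_sum_of_subset_of_nonneg
        · intro b hb
          exact Fintype.mem_piFinset.2 (mem_tup.1 hb).1
        · intro _ _ _
          exact Nat.cast_nonneg _

end Pool.Agent.NH15.TS
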