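import Pool.Agent.NH15.TS.T2

set_option autoImplicit false

/-! The two conditions of the chain for separated points. -/

namespace Pool.Agent.NH15.TS

open Finset Filter
open Pool.Agent.W301.SS (pn pn_mono pn_le pn_eq ev_L ev_log)
open Pool.Agent.NH15.UT (HT hit_all class_bad)

/-- the multiples of `y + 1` in `[1, N]` -/
def grid (N y : ℕ) : Finset ℕ := (Icc 1 N).filter (fun n => n % (y + 1) = 0)

lemma grid_sub (N y : ℕ) : grid N y ⊆ Icc 1 N := filter_subset _ _

lemma tendL : Tendsto (fun N : ℕ => Real.log N) atTop atTop := Real.tendsto_log_atTop.comp tendsto_natCast_atTop_atTop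

lemma bad_grid (δ η : ℝ) (hδ : 0 < δ) (hη : 0 < η) (D : ℕ) : ∀ᶠ N : ℕ in atTop, ∀ y : ℕ, (y : ℝ) ≤ Real.log N ^ (1 - δ) →
    ∀ S : Finset ℕ, S ⊆ grid N y → (N : ℝ) ^ η ≤ S.card →
      (((Icc 1 N).filter (fun b => S.card < 2 * (S.filter (fun n => HT y (n + b))).card)).card : ℝ) ≤
        1 / Real.log N ^ D * N := by
  classical
  obtain ⟨r, hr⟩ : ∃ r : ℕ, ((D : ℝ) + 3) / δ ≤ r := exists_nat_ge _
  rw [div_le_iff₀ hδ] at hr
  have hr1 : 1 ≤ r := by
    by_contra h
    have : r = 0 := by omega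
    rw [this] at hr
    simp at hr
    have : (0 : ℝ) ≤ D := Nat.cast_nonneg D
    linarith
  obtain ⟨C, hC, h⟩ := hit_all r hr1
  have hpow : ∀ᶠ N : ℕ in atTop, (8 * r : ℝ) ≤ (N : ℝ) ^ η :=
    ((tendsto_rpow_atTop hη).comp tendsto_natCast_atTop_atTop).eventually_ge_atTop _
  filter_upwards [h 1 (by norm_num), ev_L (8 ^ r * C + 16), hpow, eventually_ge_atTop 16] with N h1 hL hpow hN16 y hy S hS hSc
  have hNr : (16 : ℝ) ≤ N := by exact_mod_cast hN16
  have hN0 : (0 : ℝ) < N := by linarith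
  obtain ⟨L, hLd⟩ : ∃ L, L = Real.log (N : ℝ) := ⟨_, rfl⟩
  rw [← hLd] at hL hy h1 ⊢
  have h8 : 0 < 8 ^ r * C := by positivity
  have hL1 : 1 ≤ L := by linarith
  have hL0 : 0 < L := by linarith
  have hyN : y ≤ N := by
    have h3 : L ^ (1 - δ) ≤ L ^ (1 : ℝ) := Real.rpow_le_rpow_of_exponent_le hL1 (by linarith)
    rw [Real.rpow_one] at h3
    have h4 : L ≤ N := by
      rw [hLd]
      have := Real.log_le_sub_one_of_pos hN0
      linarith
    have : (y : ℝ) ≤ N := by linarith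
    exact_mod_cast this
  obtain ⟨Q, hQ⟩ : ∃ Q : ℝ, Q = (y : ℝ) ^ r * (C * N / L ^ r * L ^ (1 : ℝ)) := ⟨_, rfl⟩
  have hQ0 : 0 ≤ Q := by rw [hQ]; positivity
  have hsubgrid : ∀ T : Finset ℕ, T ⊆ grid N y → ∀ n ∈ T, n % (y + 1) = 0 := by
    intro T hT n hn
    exact (mem_filter.1 (hT hn)).2
  have h2 := class_bad r N y 0 hr1 Q hQ0 (fun T hT hTc hTρ => by
    rw [hQ]
    exact h1 y hyN 0 T hT hTc hTρ) S (hS.trans (grid_sub N y)) (hsubgrid S hS) (by
      have : (8 * r : ℝ) ≤ S.card := hpow.trans hSc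
      exact_mod_cast this)
  have h3 : (((Icc 1 N).filter (fun b => S.card < 2 * (S.filter (fun n => HT y (n + b))).card)).card : ℝ) ≤
      (((Icc 1 N).filter (fun b => S.card < 4 * (S.filter (fun n => HT y (n + b))).card)).card : ℝ) := by
    apply Nat.cast_le.2
    apply card_le_card
    intro b hb
    rw [mem_filter] at hb ⊢
    exact ⟨hb.1, by omega⟩
  refine h3.trans (h2.trans ?_)
  have h4 : (y : ℝ) ^ r ≤ L ^ ((1 - δ) * r) := by
    calc (y : ℝ) ^ r ≤ (L ^ (1 - δ)) ^ r := pow_le_pow_left₀ (Nat.cast_nonneg _) hy r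
      _ = _ := by rw [← Real.rpow_natCast, ← Real.rpow_mul hL0.le]
  have h5 : Q ≤ L ^ ((1 - δ) * r) * (C * N / L ^ r * L ^ (1 : ℝ)) := by
    rw [hQ]
    exact mul_le_mul_of_nonneg_right h4 (by positivity)
  have h6 : L ^ ((1 - δ) * r) * (C * N / L ^ r * L ^ (1 : ℝ)) = C * N * L ^ (1 - δ * r) := by
    rw [show (1 - δ * (r : ℝ)) = (1 - δ) * r + 1 - r by ring, Real.rpow_sub hL0, Real.rpow_add hL0,
      Real.rpow_natCast]
    field_simp
  have h7 : L ^ (1 - δ * r) ≤ L ^ (-(2 : ℝ) - D) := by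
    apply Real.rpow_le_rpow_of_exponent_le hL1
    linarith
  have h9 : L ^ (-(2 : ℝ) - D) = 1 / (L ^ 2 * L ^ D) := by
    rw [Real.rpow_sub hL0, Real.rpow_neg hL0.le, Real.rpow_natCast, Real.rpow_two]
    field_simp
  have h10 : Q ≤ C * N * (1 / (L ^ 2 * L ^ D)) := by
    rw [← h9]
    rw [h6] at h5
    exact h5.trans (mul_le_mul_of_nonneg_left h7 (by positivity))
  calc 8 ^ r * Q ≤ 8 ^ r * (C * N * (1 / (L ^ 2 * L ^ D))) := mul_le_mul_of_nonneg_left h10 (by positivity)
    _ = (8 ^ r * C / L ^ 2) * (1 / L ^ D * N) := by field_simp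
    _ ≤ 1 * (1 / L ^ D * N) := by
        apply mul_le_mul_of_nonneg_right _ (by positivity)
        rw [div_le_one (by positivity)]
        nlinarith
    _ = _ := one_mul _

lemma mean_grid (ε δ η : ℝ) (hε : 0 < ε) (hε1 : ε ≤ 1) (hδ : 0 < δ) (hη : 0 < η) : ∀ᶠ N : ℕ in atTop, ∀ y : ℕ,
    (y : ℝ) ≤ Real.log N ^ (1 - δ) → ∀ S : Finset ℕ, S ⊆ grid N y → (N : ℝ) ^ η ≤ S.card →
      ∑ b ∈ Icc 1 N, (1 + ((S.filter (fun n => HT y (n + b))).card : ℝ) / S.card +
        2 * (((S.filter (fun n => HT y (n + b))).card : ℝ) / S.card) ^ 2) ≤ (1 + (1 + ε) * (y / Real.log N)) * N := by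
  classical
  obtain ⟨C, hC, h⟩ := hit_all 2 (by norm_num)
  have hpow : ∀ᶠ N : ℕ in atTop, 16 / ε ≤ (N : ℝ) ^ η :=
    ((tendsto_rpow_atTop hη).comp tendsto_natCast_atTop_atTop).eventually_ge_atTop _
  have hsm : ∀ᶠ N : ℕ in atTop, 8 * C / ε ≤ Real.log N ^ (δ / 2) :=
    ((tendsto_rpow_atTop (by positivity : 0 < δ / 2)).comp tendL).eventually_ge_atTop _
  filter_upwards [h (δ / 2) (by positivity), hits_asym (ε / 2) δ (by positivity) (by linarith) hδ, ev_L 1, hpow, hsm,
    eventually_ge_atTop 16] with N h1 h2 hL hpow hsm hN16 y hy S hS hSc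
  have hNr : (16 : ℝ) ≤ N := by exact_mod_cast hN16
  have hN0 : (0 : ℝ) < N := by linarith
  obtain ⟨L, hLd⟩ : ∃ L, L = Real.log (N : ℝ) := ⟨_, rfl⟩
  rw [← hLd] at hL hy h1 h2 hsm ⊢
  have hL0 : 0 < L := by linarith
  have hyN : y ≤ N := by
    have h3 : L ^ (1 - δ) ≤ L ^ (1 : ℝ) := Real.rpow_le_rpow_of_exponent_le hL (by linarith)
    rw [Real.rpow_one] at h3
    have h4 : L ≤ N := by
      rw [hLd]
      have := Real.log_le_sub_one_of_pos hN0
      linarith
    have : (y : ℝ) ≤ N := by linarith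
    exact_mod_cast this
  have hSbig : 16 / ε ≤ S.card := hpow.trans hSc
  have h16 : 0 < 16 / ε := by positivity
  have hS0 : (0 : ℝ) < S.card := by linarith
  have hSN : ∀ n ∈ S, 1 ≤ n ∧ n ≤ N := fun n hn => mem_Icc.1 (grid_sub N y (hS hn))
  obtain ⟨u, hu⟩ : ∃ u : ℝ, u = N * (y / L) := ⟨_, rfl⟩
  have hu0 : 0 ≤ u := by rw [hu]; positivity
  -- the hits of one point
  have hone : ∀ n ∈ S, (((Icc 1 N).filter (fun b => HT y (n + b))).card : ℝ) ≤ (1 + ε / 2) * u := by
    intro n hn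
    rw [hu]
    exact (h2 n y (hSN n hn).2 hy).2
  -- the hits of two points
  obtain ⟨Q, hQ⟩ : ∃ Q : ℝ, Q = (y : ℝ) ^ 2 * (C * N / L ^ 2 * L ^ (δ / 2)) := ⟨_, rfl⟩
  have hQ0 : 0 ≤ Q := by rw [hQ]; positivity
  have htwo : ∀ n ∈ S, ∀ n' ∈ S, n ≠ n' →
      (((Icc 1 N).filter (fun b => HT y (n + b) ∧ HT y (n' + b))).card : ℝ) ≤ Q := by
    intro n hn n' hn' hne
    rw [hQ]
    have hT : ({n, n'} : Finset ℕ).card = 2 := card_pair hne
    refine le_trans ?_ (h1 y hyN 0 {n, n'} ?_ hT ?_)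
    · apply Nat.cast_le.2
      apply card_le_card
      intro b hb
      rw [mem_filter] at hb ⊢
      refine ⟨hb.1, ?_⟩
      intro m hm
      rw [mem_insert, mem_singleton] at hm
      rcases hm with rfl | rfl
      · exact hb.2.1
      · exact hb.2.2
    · intro m hm
      rw [mem_insert, mem_singleton] at hm
      rcases hm with rfl | rfl
      · exact mem_Icc.2 (hSN _ hn)
      · exact mem_Icc.2 (hSN _ hn')
    · intro m hm
      rw [mem_insert, mem_singleton] at hm
      rcases hm with rfl | rfl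
      · exact (mem_filter.1 (hS hn)).2
      · exact (mem_filter.1 (hS hn')).2
  have hc : ∀ b, ((S.filter (fun n => HT y (n + b))).card : ℝ) = ∑ n ∈ S, if HT y (n + b) then (1 : ℝ) else 0 := by
    intro b
    rw [← sum_filter, sum_const, nsmul_eq_mul, mul_one]
  have hfirst : ∑ b ∈ Icc 1 N, ((S.filter (fun n => HT y (n + b))).card : ℝ) ≤ S.card * ((1 + ε / 2) * u) := by
    rw [sum_congr rfl fun b _ => hc b, sum_comm]
    calc ∑ n ∈ S, ∑ b ∈ Icc 1 N, (if HT y (n + b) then (1 : ℝ) else 0) ≤ ∑ _n ∈ S, (1 + ε / 2) * u := by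
          apply sum_le_sum
          intro n hn
          rw [← sum_filter, sum_const, nsmul_eq_mul, mul_one]
          exact hone n hn
      _ = _ := by rw [sum_const, nsmul_eq_mul]
  have hsecond : ∑ b ∈ Icc 1 N, ((S.filter (fun n => HT y (n + b))).card : ℝ) ^ 2 ≤
      S.card * ((1 + ε / 2) * u + S.card * Q) := by
    have e1 : ∀ b, ((S.filter (fun n => HT y (n + b))).card : ℝ) ^ 2 =
        ∑ n ∈ S, ∑ n' ∈ S, if (HT y (n + b) ∧ HT y (n' + b)) then (1 : ℝ) else 0 := by
      intro b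
      rw [hc, sq, sum_mul_sum]
      apply sum_congr rfl
      intro n _
      apply sum_congr rfl
      intro n' _
      by_cases g1 : HT y (n + b) <;> by_cases g2 : HT y (n' + b) <;> simp [g1, g2]
    rw [sum_congr rfl fun b _ => e1 b, sum_comm]
    calc ∑ n ∈ S, ∑ b ∈ Icc 1 N, ∑ n' ∈ S, (if (HT y (n + b) ∧ HT y (n' + b)) then (1 : ℝ) else 0) ≤
          ∑ _n ∈ S, ((1 + ε / 2) * u + S.card * Q) := by
          apply sum_le_sum
          intro n hn
          rw [sum_comm, ← add_sum_erase S _ hn]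
          apply add_le_add
          · simp only [and_self]
            rw [← sum_filter, sum_const, nsmul_eq_mul, mul_one]
            exact hone n hn
          · calc ∑ n' ∈ S.erase n, ∑ b ∈ Icc 1 N, (if (HT y (n + b) ∧ HT y (n' + b)) then (1 : ℝ) else 0) ≤
                  ∑ _n' ∈ S.erase n, Q := by
                  apply sum_le_sum
                  intro n' hn'
                  rw [mem_erase] at hn'
                  rw [← sum_filter, sum_const, nsmul_eq_mul, mul_one]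
                  exact htwo n hn n' hn'.2 (Ne.symm hn'.1)
              _ ≤ _ := by
                  rw [sum_const, nsmul_eq_mul]
                  apply mul_le_mul_of_nonneg_right _ hQ0
                  exact_mod_cast card_le_card (erase_subset _ _)
      _ = _ := by rw [sum_const, nsmul_eq_mul]
  have e2 : ∀ b, (1 : ℝ) + ((S.filter (fun n => HT y (n + b))).card : ℝ) / S.card +
      2 * (((S.filter (fun n => HT y (n + b))).card : ℝ) / S.card) ^ 2 = 1 +
      ((S.filter (fun n => HT y (n + b))).card : ℝ) / S.card +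
      (2 / (S.card : ℝ) ^ 2) * ((S.filter (fun n => HT y (n + b))).card : ℝ) ^ 2 := by
    intro b
    ring
  rw [sum_congr rfl fun b _ => e2 b, sum_add_distrib, sum_add_distrib, ← sum_div, ← mul_sum, sum_const, nsmul_eq_mul,
    Nat.card_Icc, Nat.add_sub_cancel, mul_one]
  have g1 : (∑ b ∈ Icc 1 N, ((S.filter (fun n => HT y (n + b))).card : ℝ)) / S.card ≤ (1 + ε / 2) * u := by
    rw [div_le_iff₀ hS0]
    linarith
  have g2 : 2 / (S.card : ℝ) ^ 2 * ∑ b ∈ Icc 1 N, ((S.filter (fun n => HT y (n + b))).card : ℝ) ^ 2 ≤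
      2 * ((1 + ε / 2) * u) / S.card + 2 * Q := by
    calc _ ≤ 2 / (S.card : ℝ) ^ 2 * (S.card * ((1 + ε / 2) * u + S.card * Q)) :=
          mul_le_mul_of_nonneg_left hsecond (by positivity)
      _ = _ := by field_simp
  have g3 : 2 * ((1 + ε / 2) * u) / S.card ≤ ε / 4 * u := by
    rw [div_le_iff₀ hS0]
    rw [div_le_iff₀ hε] at hSbig
    have : 16 * u ≤ (S.card * ε) * u := mul_le_mul_of_nonneg_right hSbig hu0
    nlinarith
  have g4 : 2 * Q ≤ ε / 4 * u := by
    have h8 : (y / L) * L ^ (δ / 2) ≤ L ^ (-(δ / 2)) := by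
      calc (y / L) * L ^ (δ / 2) ≤ (L ^ (1 - δ) / L) * L ^ (δ / 2) := by
            apply mul_le_mul_of_nonneg_right _ (by positivity)
            exact div_le_div_of_nonneg_right hy hL0.le
        _ = _ := by
            rw [← Real.rpow_sub_one hL0.ne', ← Real.rpow_add hL0]
            congr 1
            ring
    have h9 : 8 * C * L ^ (-(δ / 2)) ≤ ε := by
      rw [Real.rpow_neg hL0.le, ← div_eq_mul_inv, div_le_iff₀ (by positivity)]
      rw [div_le_iff₀ hε] at hsm
      nlinarith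
    have h10 : Q = u * (C * ((y / L) * L ^ (δ / 2))) := by
      rw [hQ, hu]
      field_simp
    rw [h10]
    have h11 : C * ((y / L) * L ^ (δ / 2)) ≤ C * L ^ (-(δ / 2)) := mul_le_mul_of_nonneg_left h8 hC.le
    have h12 := mul_le_mul_of_nonneg_left h11 hu0
    have h13 := mul_le_mul_of_nonneg_left h9 hu0
    nlinarith
  have g5 : (1 + (1 + ε) * (y / L)) * N = N + (1 + ε) * u := by
    rw [hu]
    ring
  rw [g5]
  linarith

lemma grid_card (N y : ℕ) (hy : y + 1 ≤ N) : (N : ℝ) / (2 * (y + 1)) ≤ (grid N y).card := by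
  classical
  have h1 : N / (y + 1) ≤ (grid N y).card := by
    have e : (Icc 1 (N / (y + 1))).image (fun i => i * (y + 1)) ⊆ grid N y := by
      intro n hn
      rw [mem_image] at hn
      obtain ⟨i, hi, rfl⟩ := hn
      rw [mem_Icc] at hi
      unfold grid
      rw [mem_filter, mem_Icc]
      refine ⟨⟨?_, ?_⟩, Nat.mul_mod_left _ _⟩
      · exact Nat.mul_pos (by omega) (by omega)
      · exact (Nat.mul_le_mul_right _ hi.2).trans (Nat.div_mul_le_self _ _)
    have := card_le_card e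
    rw [card_image_of_injective _ (fun a b h => Nat.eq_of_mul_eq_mul_right (Nat.succ_pos y) h), Nat.card_Icc, Nat.add_sub_cancel] at this
    exact this
  have h2 : N < (N / (y + 1) + 1) * (y + 1) := by
    have := Nat.lt_mul_div_succ N (show 0 < y + 1 by omega)
    rw [mul_comm] at this
    exact this
  have h3 : 1 ≤ N / (y + 1) := (Nat.one_le_div_iff (by omega)).2 hy
  rw [div_le_iff₀ (by positivity)]
  have h4 : N ≤ 2 * (N / (y + 1)) * (y + 1) := by nlinarith
  have h5 : (N : ℝ) ≤ 2 * ((N / (y + 1) : ℕ) : ℝ) * (y + 1) := by exact_mod_cast h4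
  have h6 : ((N / (y + 1) : ℕ) : ℝ) ≤ (grid N y).card := by exact_mod_cast h1
  have h7 : (0 : ℝ) ≤ (y : ℝ) + 1 := by positivity
  nlinarith

end Pool.Agent.NH15.TS
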