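import Pool.Agent.NH15.TS.T3
import Pool.Agent.NH15.UT.U4

set_option autoImplicit false

/-! The maximal gap and the tail law for almost all unions of translates of the primes. -/

namespace Pool.Agent.NH15.TS

open Finset Filter
open Pool.Agent.W301.SS (pn pn_mono pn_le pn_eq ev_L ev_log)
open Pool.Agent.NH15.UT (HT numT tup mem_tup numT_mono numT_le numT_or numT_zero numT_ex numT_succ surv surv_cons hits
  hits_mono hits_zero numT_nonneg)

lemma ev_exp (c δ : ℝ) (hc : 0 < c) (hδ : 0 < δ) (m : ℕ) : ∀ᶠ N : ℕ in atTop,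
    Real.exp (-(c * Real.log N ^ δ)) ≤ 1 / Real.log N ^ m := by
  have h1 := (tendsto_rpow_mul_exp_neg_mul_atTop_nhds_zero ((m : ℝ) / δ) c hc).comp
    ((tendsto_rpow_atTop hδ).comp tendL)
  filter_upwards [h1.eventually (gt_mem_nhds one_pos), ev_L 1] with N h2 hL
  have hL0 : 0 < Real.log N := by linarith
  simp only [Function.comp_apply] at h2
  rw [← Real.rpow_mul hL0.le, mul_div_cancel₀ _ hδ.ne', Real.rpow_natCast] at h2
  rw [le_div_iff₀ (by positivity)]
  rw [show -(c * Real.log (N : ℝ) ^ δ) = -c * Real.log (N : ℝ) ^ δ by ring]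
  linarith

/-- no long gaps -/
lemma no_gap (ε δ : ℝ) (hε : 0 < ε) (hε1 : ε ≤ 1) (hδ : 0 < δ) (hδ1 : δ ≤ 1 / 2) : ∀ᶠ N : ℕ in atTop, ∀ k : ℕ,
    Real.log N ^ (1 + δ) ≤ k →
    numT N k (fun b => ∃ y n : ℕ, (1 + ε) * Real.log N ^ 2 ≤ k * y ∧ n ≤ N ∧ hits b y n = 0) ≤
      (N : ℝ) ^ k * (2 / (N : ℝ) ^ (ε / 2)) := by
  classical
  have hsm : ∀ᶠ N : ℕ in atTop, 3 ≤ Real.log N ^ (δ / 2) :=
    ((tendsto_rpow_atTop (by positivity : 0 < δ / 2)).comp tendL).eventually_ge_atTop _
  filter_upwards [hits_asym (ε / 4) (δ / 2) (by positivity) (by linarith) (by positivity), ev_L 1, hsm,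
    eventually_ge_atTop 16] with N h1 hL hsm hN16 k hk
  have hNr : (16 : ℝ) ≤ N := by exact_mod_cast hN16
  have hN0 : (0 : ℝ) < N := lt_of_lt_of_le (by norm_num) hNr
  obtain ⟨L, hLd⟩ : ∃ L, L = Real.log (N : ℝ) := ⟨_, rfl⟩
  rw [← hLd] at hL h1 hsm hk ⊢
  have hL0 : 0 < L := by linarith
  have hk0 : (0 : ℝ) < k := lt_of_lt_of_le (by positivity) hk
  have hLk : L ^ 2 / k ≤ L ^ (1 - δ) := by
    rw [div_le_iff₀ hk0]
    calc L ^ 2 = L ^ (1 - δ) * L ^ (1 + δ) := by
          rw [← Real.rpow_add hL0, ← Real.rpow_two]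
          congr 1
          ring
      _ ≤ _ := mul_le_mul_of_nonneg_left hk (by positivity)
  obtain ⟨y, hy⟩ : ∃ y : ℕ, y = ⌈(1 + ε) * L ^ 2 / k⌉₊ := ⟨_, rfl⟩
  have hy1 : (1 + ε) * L ^ 2 ≤ k * y := by
    have h2 : (1 + ε) * L ^ 2 / k ≤ y := by rw [hy]; exact Nat.le_ceil _
    rw [div_le_iff₀ hk0] at h2
    linarith
  have hLδ : 1 ≤ L ^ (1 - δ) := Real.one_le_rpow hL (by linarith)
  have hy2 : (y : ℝ) ≤ L ^ (1 - δ / 2) := by
    have h2 : (y : ℝ) ≤ (1 + ε) * L ^ 2 / k + 1 := by rw [hy]; exact (Nat.ceil_lt_add_one (by positivity)).le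
    have h3 : (1 + ε) * L ^ 2 / k ≤ 2 * L ^ (1 - δ) := by
      calc (1 + ε) * L ^ 2 / k = (1 + ε) * (L ^ 2 / k) := by ring
        _ ≤ 2 * L ^ (1 - δ) := by
            apply mul_le_mul (by linarith) hLk (by positivity) (by norm_num)
    calc (y : ℝ) ≤ 3 * L ^ (1 - δ) := by linarith
      _ ≤ L ^ (δ / 2) * L ^ (1 - δ) := mul_le_mul_of_nonneg_right hsm (by positivity)
      _ = _ := by
          rw [← Real.rpow_add hL0]
          congr 1
          ring
  have key := many_surv N k y (range (N + 1)) ((1 - ε / 4) * (y / L)) 1 (by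
    intro n hn
    rw [mem_range] at hn
    have := (h1 n y (by omega) hy2).1
    calc (1 - ε / 4) * (y / L) * N = (1 - ε / 4) * (N * (y / L)) := by ring
      _ ≤ _ := this)
  rw [mul_one, card_range] at key
  refine (numT_mono N k ?_).trans (key.trans ?_)
  · rintro b ⟨z, n, hz, hn, h0⟩
    have hyz : y ≤ z := by
      rw [hy]
      apply Nat.ceil_le.2
      rw [div_le_iff₀ hk0]
      linarith
    have h2 : hits b y n = 0 := by
      have := hits_mono b n hyz
      omega
    have h3 : n ∈ surv y (range (N + 1)) b := by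
      unfold surv
      rw [mem_filter, mem_range]
      exact ⟨by omega, (hits_zero b y n).1 h2⟩
    have h4 : 1 ≤ (surv y (range (N + 1)) b).card := card_pos.2 ⟨n, h3⟩
    exact_mod_cast h4
  · have h2 : (1 + ε / 2) * L ≤ k * ((1 - ε / 4) * (y / L)) := by
      have e : (k : ℝ) * ((1 - ε / 4) * (y / L)) = (1 - ε / 4) * (k * y) / L := by ring
      rw [e, le_div_iff₀ hL0]
      calc (1 + ε / 2) * L * L = (1 + ε / 2) * L ^ 2 := by ring
        _ ≤ ((1 - ε / 4) * (1 + ε)) * L ^ 2 := by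
            apply mul_le_mul_of_nonneg_right _ (by positivity)
            nlinarith
        _ = (1 - ε / 4) * ((1 + ε) * L ^ 2) := by ring
        _ ≤ (1 - ε / 4) * (k * y) := mul_le_mul_of_nonneg_left hy1 (by linarith)
    have h3 : Real.exp (-(k * ((1 - ε / 4) * (y / L)))) ≤ 1 / N * (1 / (N : ℝ) ^ (ε / 2)) := by
      calc _ ≤ Real.exp (-L + -(L * (ε / 2))) := Real.exp_le_exp.2 (by linarith)
        _ = _ := by
            rw [Real.exp_add, Real.exp_neg, Real.exp_neg, hLd, Real.exp_log hN0, ← Real.rpow_def_of_pos hN0, one_div,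
              one_div]
    calc ((N + 1 : ℕ) : ℝ) * ((N : ℝ) ^ k * Real.exp (-(k * ((1 - ε / 4) * (y / L))))) ≤
          (2 * N) * ((N : ℝ) ^ k * (1 / N * (1 / (N : ℝ) ^ (ε / 2)))) := by
          apply mul_le_mul _ _ (by positivity) (by positivity)
          · push_cast
            linarith
          · exact mul_le_mul_of_nonneg_left h3 (by positivity)
      _ = _ := by field_simp

/-- the number of the long gaps, for one length -/
lemma tail_one (ε δ : ℝ) (hε : 0 < ε) (hε1 : ε < 1) (hδ : 0 < δ) (A : ℕ) : ∀ᶠ N : ℕ in atTop, ∀ k : ℕ,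
    Real.log N ^ (1 + δ) ≤ k → ∀ y : ℕ, 1 ≤ y → (k : ℝ) * y ≤ (1 - ε) * Real.log N ^ 2 →
    numT N k (fun b => ¬ (N * Real.exp (-((1 + ε) * (k * y / Real.log N))) ≤ ((surv y (Icc 1 N) b).card : ℝ) ∧
      ((surv y (Icc 1 N) b).card : ℝ) ≤ N * Real.exp (-((1 - ε) * (k * y / Real.log N))))) ≤
      (N : ℝ) ^ k * (1 / Real.log N ^ A) := by
  classical
  filter_upwards [hits_asym (ε / 2) δ (by positivity) (by linarith) hδ, ev_L 10, ev_exp (ε / 2) δ (by positivity) hδ (A + 4),
    bad_grid δ (ε ^ 2) hδ (by positivity) (A + 4), mean_grid (ε / 2) δ (ε ^ 2) (by positivity) (by linarith) hδ (by positivity),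
    ev_log 1 4 1 one_pos, eventually_ge_atTop 16] with N h1 hL hexp hbad hmean hlog hN16 k hk y hy1 hky
  have hNr : (16 : ℝ) ≤ N := by exact_mod_cast hN16
  have hN0 : (0 : ℝ) < N := lt_of_lt_of_le (by norm_num) hNr
  obtain ⟨L, hLd⟩ : ∃ L, L = Real.log (N : ℝ) := ⟨_, rfl⟩
  rw [← hLd] at hL h1 hexp hbad hmean hlog hk hky ⊢
  rw [pow_one, Real.rpow_one] at hlog
  have hL0 : 0 < L := by linarith
  have hk0 : (0 : ℝ) < k := lt_of_lt_of_le (by positivity) hk
  have hy0 : (1 : ℝ) ≤ y := by exact_mod_cast hy1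
  have hyL : (y : ℝ) ≤ L ^ (1 - δ) := by
    have h2 : L ^ (1 + δ) * y ≤ L ^ (1 + δ) * L ^ (1 - δ) := by
      calc L ^ (1 + δ) * y ≤ k * y := mul_le_mul_of_nonneg_right hk (by linarith)
        _ ≤ (1 - ε) * L ^ 2 := hky
        _ ≤ 1 * L ^ 2 := mul_le_mul_of_nonneg_right (by linarith) (by positivity)
        _ = L ^ (1 + δ) * L ^ (1 - δ) := by
            rw [← Real.rpow_add hL0, one_mul, ← Real.rpow_two]
            congr 1
            ring
    exact le_of_mul_le_mul_left h2 (by positivity)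
  have hyL1 : (y : ℝ) ≤ L := by
    refine hyL.trans ?_
    calc L ^ (1 - δ) ≤ L ^ (1 : ℝ) := Real.rpow_le_rpow_of_exponent_le (by linarith) (by linarith)
      _ = L := Real.rpow_one _
  have hkL : (k : ℝ) ≤ L ^ 2 := by
    have h2 : (k : ℝ) * 1 ≤ k * y := mul_le_mul_of_nonneg_left hy0 hk0.le
    nlinarith [sq_nonneg L]
  obtain ⟨v, hv⟩ : ∃ v : ℝ, v = k * y / L := ⟨_, rfl⟩
  rw [← hv]
  have hv0 : 0 < v := by rw [hv]; positivity
  have hvδ : L ^ δ ≤ v := by
    rw [hv, le_div_iff₀ hL0]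
    calc L ^ δ * L = L ^ (1 + δ) := by
          rw [add_comm, Real.rpow_add_one hL0.ne']
      _ ≤ k := hk
      _ ≤ k * y := by nlinarith
  have hvL : v ≤ (1 - ε) * L := by
    rw [hv, div_le_iff₀ hL0]
    linarith
  have hev : Real.exp (-(ε / 2 * v)) ≤ 1 / L ^ (A + 4) := by
    refine le_trans (Real.exp_le_exp.2 ?_) hexp
    have := mul_le_mul_of_nonneg_left hvδ (by positivity : 0 ≤ ε / 2)
    linarith
  have hNk : (0 : ℝ) ≤ (N : ℝ) ^ k := by positivity
  -- upper bound
  have hup : numT N k (fun b => N * Real.exp (-((1 - ε) * v)) ≤ ((surv y (Icc 1 N) b).card : ℝ)) ≤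
      (N : ℝ) ^ k * (1 / L ^ (A + 4)) := by
    have key := many_surv N k y (Icc 1 N) ((1 - ε / 2) * (y / L)) (N * Real.exp (-((1 - ε) * v))) (by
      intro n hn
      rw [mem_Icc] at hn
      have := (h1 n y hn.2 hyL).1
      calc (1 - ε / 2) * (y / L) * N = (1 - ε / 2) * (N * (y / L)) := by ring
        _ ≤ _ := this)
    rw [Nat.card_Icc, Nat.add_sub_cancel] at key
    have hW : 0 < N * Real.exp (-((1 - ε) * v)) := by positivity
    refine le_of_mul_le_mul_right (key.trans ?_) hW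
    have e1 : Real.exp (-(k * ((1 - ε / 2) * (y / L)))) = Real.exp (-(ε / 2 * v)) * Real.exp (-((1 - ε) * v)) := by
      rw [← Real.exp_add]
      congr 1
      rw [hv]
      ring
    rw [e1]
    calc (N : ℝ) * ((N : ℝ) ^ k * (Real.exp (-(ε / 2 * v)) * Real.exp (-((1 - ε) * v)))) =
          ((N : ℝ) ^ k * Real.exp (-(ε / 2 * v))) * (N * Real.exp (-((1 - ε) * v))) := by ring
      _ ≤ _ := by
          apply mul_le_mul_of_nonneg_right _ hW.le
          exact mul_le_mul_of_nonneg_left hev hNk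
  -- lower bound
  obtain ⟨θ, hθ⟩ : ∃ θ : ℝ, θ = N * Real.exp (-((1 + ε) * v)) := ⟨_, rfl⟩
  have hθ0 : 0 < θ := by rw [hθ]; positivity
  have hθN : (N : ℝ) ^ (ε ^ 2) ≤ θ := by
    have e1 : (N : ℝ) ^ (ε ^ 2) = N * Real.exp (-((1 + ε) * ((1 - ε) * L))) := by
      have e2 : Real.exp L = N := by rw [hLd, Real.exp_log hN0]
      rw [Real.rpow_def_of_pos hN0, ← hLd]
      calc Real.exp (L * ε ^ 2) = Real.exp (L + -((1 + ε) * ((1 - ε) * L))) := by
            congr 1
            ring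
        _ = _ := by rw [Real.exp_add, e2]
    rw [e1, hθ]
    apply mul_le_mul_of_nonneg_left _ hN0.le
    apply Real.exp_le_exp.2
    have := mul_le_mul_of_nonneg_left hvL (by linarith : 0 ≤ 1 + ε)
    linarith
  have hyN : y + 1 ≤ N := by
    have : (y : ℝ) + 1 ≤ N := by linarith
    exact_mod_cast this
  have hg := grid_card N y hyN
  have hg0 : (0 : ℝ) < (grid N y).card := lt_of_lt_of_le (by positivity) hg
  have hlow : numT N k (fun b => ((surv y (grid N y) b).card : ℝ) < θ) ≤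
      (N : ℝ) ^ k * (4 * L * (1 / L ^ (A + 4)) + L ^ 2 * (1 / L ^ (A + 4))) := by
    have key := chainT N y (grid N y) θ ((1 + ε / 2) * (y / L)) (1 / L ^ (A + 4)) hθ0 (by positivity) (by positivity)
      (fun S hS hSc => hbad y hyL S hS (hθN.trans hSc)) (fun S hS hSc => hmean y hyL S hS (hθN.trans hSc)) k
      (grid N y) (Subset.refl _) (card_pos.1 (by exact_mod_cast hg0))
    refine key.trans ?_
    apply mul_le_mul_of_nonneg_left _ hNk
    apply add_le_add
    · have g1 : θ / (grid N y).card ≤ 4 * L * Real.exp (-((1 + ε) * v)) := by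
        rw [div_le_iff₀ hg0]
        have g2 : (N : ℝ) ≤ 4 * L * (grid N y).card := by
          rw [div_le_iff₀ (by positivity)] at hg
          have g3 : 2 * ((y : ℝ) + 1) ≤ 4 * L := by linarith
          have g4 := mul_le_mul_of_nonneg_left g3 hg0.le
          linarith
        calc θ = N * Real.exp (-((1 + ε) * v)) := hθ
          _ ≤ (4 * L * (grid N y).card) * Real.exp (-((1 + ε) * v)) :=
              mul_le_mul_of_nonneg_right g2 (Real.exp_pos _).le
          _ = _ := by ring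
      have g2 : (1 + (1 + ε / 2) * (y / L)) ^ k ≤ Real.exp ((1 + ε / 2) * v) := by
        calc (1 + (1 + ε / 2) * (y / L)) ^ k ≤ (Real.exp ((1 + ε / 2) * (y / L))) ^ k := by
              apply pow_le_pow_left₀ (by positivity)
              have := Real.add_one_le_exp ((1 + ε / 2) * ((y : ℝ) / L))
              linarith
          _ = _ := by
              rw [← Real.exp_nat_mul]
              congr 1
              rw [hv]
              ring
      calc θ / (grid N y).card * (1 + (1 + ε / 2) * (y / L)) ^ k ≤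
            (4 * L * Real.exp (-((1 + ε) * v))) * Real.exp ((1 + ε / 2) * v) :=
            mul_le_mul g1 g2 (by positivity) (by positivity)
        _ = 4 * L * Real.exp (-(ε / 2 * v)) := by
            rw [mul_assoc, ← Real.exp_add]
            congr 2
            ring
        _ ≤ _ := mul_le_mul_of_nonneg_left hev (by positivity)
    · exact mul_le_mul_of_nonneg_right hkL (by positivity)
  refine le_trans (numT_mono N k (F := fun b => (N * Real.exp (-((1 - ε) * v)) ≤ ((surv y (Icc 1 N) b).card : ℝ)) ∨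
    (((surv y (grid N y) b).card : ℝ) < θ)) ?_) ((numT_or N k _ _).trans ((add_le_add hup hlow).trans ?_))
  · intro b hb
    by_contra hcon
    rw [not_or, not_le, not_lt] at hcon
    apply hb
    refine ⟨?_, hcon.1.le⟩
    rw [← hθ]
    refine hcon.2.trans ?_
    apply Nat.cast_le.2
    apply card_le_card
    unfold surv
    exact filter_subset_filter _ (grid_sub N y)
  · rw [← mul_add]
    apply mul_le_mul_of_nonneg_left _ hNk
    have e1 : 1 / L ^ (A + 4) + (4 * L * (1 / L ^ (A + 4)) + L ^ 2 * (1 / L ^ (A + 4))) =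
        (1 / L ^ A) * ((1 + 4 * L + L ^ 2) / L ^ 4) := by
      rw [pow_add]
      field_simp
      ring
    rw [e1]
    have e2 : (1 + 4 * L + L ^ 2) / L ^ 4 ≤ 1 := by
      rw [div_le_one (by positivity)]
      have h5 : 10 * L ≤ L ^ 2 := by nlinarith
      have h6 : 100 ≤ L ^ 2 := by nlinarith
      have h7 : L ^ 4 = L ^ 2 * L ^ 2 := by ring
      have h8 : 100 * L ^ 2 ≤ L ^ 2 * L ^ 2 := mul_le_mul_of_nonneg_right h6 (by positivity)
      rw [h7]
      linarith
    calc 1 / L ^ A * ((1 + 4 * L + L ^ 2) / L ^ 4) ≤ 1 / L ^ A * 1 := mul_le_mul_of_nonneg_left e2 (by positivity)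
      _ = _ := mul_one _

theorem final (ε δ : ℝ) (hε : 0 < ε) (hε1 : ε < 1) (hδ : 0 < δ) (A : ℕ) : ∀ᶠ N : ℕ in atTop, ∀ k : ℕ,
    Real.log N ^ (1 + δ) ≤ k →
    numT N k (fun b => ¬ ((∀ n y : ℕ, n ≤ N → (1 + ε) * Real.log N ^ 2 ≤ k * y → hits b y n ≠ 0) ∧
      (∀ y : ℕ, 1 ≤ y → (k : ℝ) * y ≤ (1 - ε) * Real.log N ^ 2 →
        N * Real.exp (-((1 + ε) * (k * y / Real.log N))) ≤ (((Icc 1 N).filter (fun n => hits b y n = 0)).card : ℝ) ∧
        (((Icc 1 N).filter (fun n => hits b y n = 0)).card : ℝ) ≤ N * Real.exp (-((1 - ε) * (k * y / Real.log N)))))) ≤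
      (N : ℝ) ^ k / Real.log N ^ A := by
  classical
  have hd : 0 < min δ (1 / 2) := lt_min hδ (by norm_num)
  filter_upwards [no_gap ε (min δ (1 / 2)) hε hε1.le hd (min_le_right _ _), tail_one ε δ hε hε1 hδ (A + 2), ev_L 10,
    ev_log (A + 1) 2 (ε / 2) (by positivity), eventually_ge_atTop 16] with N h1 h2 hL hlog hN16 k hk
  have hNr : (16 : ℝ) ≤ N := by exact_mod_cast hN16
  have hN0 : (0 : ℝ) < N := lt_of_lt_of_le (by norm_num) hNr
  obtain ⟨L, hLd⟩ : ∃ L, L = Real.log (N : ℝ) := ⟨_, rfl⟩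
  rw [← hLd] at hL h1 h2 hlog hk ⊢
  have hL0 : 0 < L := by linarith
  have hNk : (0 : ℝ) ≤ (N : ℝ) ^ k := by positivity
  have g1 := h1 k ((Real.rpow_le_rpow_of_exponent_le (by linarith) (by linarith [min_le_left δ (1 / 2)])).trans hk)
  have g2 : numT N k (fun b => ∃ y ∈ (range (⌊L⌋₊ + 1)).filter (fun y : ℕ => 1 ≤ y ∧ (k : ℝ) * y ≤ (1 - ε) * L ^ 2),
      ¬ (N * Real.exp (-((1 + ε) * (k * y / L))) ≤ ((surv y (Icc 1 N) b).card : ℝ) ∧
      ((surv y (Icc 1 N) b).card : ℝ) ≤ N * Real.exp (-((1 - ε) * (k * y / L))))) ≤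
      (2 * L) * ((N : ℝ) ^ k * (1 / L ^ (A + 2))) := by
    refine (numT_ex _ N k (fun (y : ℕ) b => ¬ (N * Real.exp (-((1 + ε) * (k * y / L))) ≤ ((surv y (Icc 1 N) b).card : ℝ) ∧
      ((surv y (Icc 1 N) b).card : ℝ) ≤ N * Real.exp (-((1 - ε) * (k * y / L)))))).trans ?_
    calc _ ≤ ∑ _y ∈ (range (⌊L⌋₊ + 1)).filter (fun y : ℕ => 1 ≤ y ∧ (k : ℝ) * y ≤ (1 - ε) * L ^ 2),
          (N : ℝ) ^ k * (1 / L ^ (A + 2)) := by
          apply sum_le_sum
          intro y hy
          rw [mem_filter] at hy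
          exact h2 k hk y hy.2.1 hy.2.2
      _ ≤ ∑ _y ∈ range (⌊L⌋₊ + 1), (N : ℝ) ^ k * (1 / L ^ (A + 2)) :=
          sum_le_sum_of_subset_of_nonneg (filter_subset _ _) fun _ _ _ => by positivity
      _ = ((⌊L⌋₊ + 1 : ℕ) : ℝ) * ((N : ℝ) ^ k * (1 / L ^ (A + 2))) := by
          rw [sum_const, card_range, nsmul_eq_mul]
      _ ≤ _ := by
          apply mul_le_mul_of_nonneg_right _ (by positivity)
          have := Nat.floor_le hL0.le
          push_cast
          linarith
  refine le_trans (numT_mono N k ?_) ((numT_or N k _ _).trans ((add_le_add g1 g2).trans ?_))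
  · intro b hb
    by_contra hcon
    rw [not_or] at hcon
    obtain ⟨c1, c2⟩ := hcon
    apply hb
    constructor
    · intro n y hn hy h0
      exact c1 ⟨y, n, hy, hn, h0⟩
    · intro y hy1 hy2
      have e : (Icc 1 N).filter (fun n => hits b y n = 0) = surv y (Icc 1 N) b := by
        unfold surv
        apply filter_congr
        intro n _
        exact hits_zero b y n
      rw [e]
      by_contra hcon
      apply c2
      refine ⟨y, ?_, hcon⟩
      rw [mem_filter, mem_range, Nat.lt_succ_iff]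
      refine ⟨Nat.le_floor ?_, hy1, hy2⟩
      have hy0 : (1 : ℝ) ≤ y := by exact_mod_cast hy1
      have h3 : L ≤ k := by
        refine le_trans ?_ hk
        calc L = L ^ (1 : ℝ) := (Real.rpow_one L).symm
          _ ≤ _ := Real.rpow_le_rpow_of_exponent_le (by linarith) (by linarith)
      have h4 : L * y ≤ L * L := by
        calc L * y ≤ k * y := mul_le_mul_of_nonneg_right h3 (by linarith)
          _ ≤ (1 - ε) * L ^ 2 := hy2
          _ ≤ 1 * L ^ 2 := mul_le_mul_of_nonneg_right (by linarith) (by positivity)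
          _ = L * L := by ring
      exact le_of_mul_le_mul_left h4 hL0
  · have e1 : (2 * L) * ((N : ℝ) ^ k * (1 / L ^ (A + 2))) = (N : ℝ) ^ k * (2 / L ^ (A + 1)) := by
      rw [show A + 2 = A + 1 + 1 by ring, pow_succ _ (A + 1)]
      field_simp
    have e2 : 2 / (N : ℝ) ^ (ε / 2) ≤ 4 / L ^ (A + 1) := by
      rw [div_le_div_iff₀ (by positivity) (by positivity)]
      nlinarith [pow_pos hL0 (A + 1)]
    have e3 : 4 / L ^ (A + 1) + 2 / L ^ (A + 1) ≤ 1 / L ^ A := by
      rw [← add_div, pow_succ, div_le_div_iff₀ (by positivity) (by positivity)]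
      nlinarith [pow_pos hL0 A]
    rw [e1, ← mul_add, div_eq_mul_one_div ((N : ℝ) ^ k)]
    apply mul_le_mul_of_nonneg_left _ hNk
    linarith

end Pool.Agent.NH15.TS
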